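import Pool.Agent.Helper54.SP.StmtsP

set_option autoImplicit false

namespace Pool.Agent.Helper54.SP

theorem cov_xk {i : ℕ} (hi : 3 ≤ i) : xk 2 < xk i := by
  have h2 : xk 2 = 0 := rfl
  rw [h2]
  unfold xk grp
  split_ifs with h
  · omega
  · omega

theorem st_COV : ST_COV := by
  intro Γ nw m _ _ hF i hi
  obtain ⟨hx, -, -, -, h01, -, -⟩ := hF
  have hN : 4 ≤ NN Γ := by unfold NN; omega
  have key : ∀ g : List ℕ, (∃ f ∈ fac Γ nw m, f.Perm g) → i ∈ g → ∃ f ∈ fac Γ nw m, i ∈ f := by
    rintro g ⟨f, hf, hp⟩ hg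
    exact ⟨f, hf, hp.mem_iff.2 hg⟩
  by_cases h0 : i < 2
  · refine key _ h01 ?_
    have : i = 0 ∨ i = 1 := by omega
    rcases this with rfl | rfl <;> simp
  · by_cases h1 : i < NN Γ
    · by_cases h2 : i = 2
      · subst h2
        have hn : Nbr (NN Γ) (fun p => 2 ≤ p) xk 2 3 := by
          refine ⟨by omega, by omega, le_rfl, by norm_num, by decide, ?_⟩
          intro r _ _ h3
          have e2 : xk 2 = 0 := rfl
          have e3 : xk 3 = 1 := rfl
          omega
        exact key _ (hx _ _ hn) (by simp)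
      · have h3 : 3 ≤ i := by omega
        obtain ⟨r, hr, hmax⟩ := Finset.exists_max_image
          ((Finset.range (NN Γ)).filter fun r => 2 ≤ r ∧ xk r < xk i) xk
          ⟨2, by
            rw [Finset.mem_filter, Finset.mem_range]
            exact ⟨by omega, le_rfl, cov_xk h3⟩⟩
        rw [Finset.mem_filter, Finset.mem_range] at hr
        have hn : Nbr (NN Γ) (fun p => 2 ≤ p) xk r i := by
          refine ⟨hr.1, h1, hr.2.1, by omega, hr.2.2, ?_⟩
          intro p hp hp2 h4
          have h5 := hmax p (by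
            rw [Finset.mem_filter, Finset.mem_range]
            exact ⟨hp, hp2, h4.2⟩)
          omega
        exact key _ (hx _ _ hn) (by simp)
    · refine key _ h01 ?_
      rw [List.mem_append]
      right
      unfold apx
      rw [List.mem_map]
      exact ⟨i - NN Γ, List.mem_range.2 (by omega), by omega⟩


end Pool.Agent.Helper54.SP
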