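import Pool.Agent.Helper54.SP.Stmts

set_option autoImplicit false

namespace Pool.Agent.Helper54.SP

theorem gx_cen (k : Bool) : 0 ≤ cen k ∧ cen k ≤ 1 := by
  cases k <;> simp [cen]

theorem gx_main {k : Bool} {U U' A A' e : ℝ} (h : GH k U U' A A' e) :
    e < 1 / 1000000 ∧ 1 + 32 * e < U' / U := by
  obtain ⟨c0, c1⟩ := gx_cen k
  have hU : 1 < U := by linarith [h.U0]
  have hU2 : U < 201 / 100 := by linarith [h.U1, h.U2]
  have hd : 0 < U' - U := by linarith [h.U1]
  have hd1 : U' - U < 1 / 100 := by linarith [h.U0, h.U2]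
  have hA : |A - U| < 1 / 100 := by
    rw [abs_lt]
    constructor
    · linarith [h.U1, h.U2, h.A0]
    · linarith [h.A1, h.A2, h.U0]
  have h1 : (U' - U) * |A - U| ≤ (U' - U) * (1 / 100) := mul_le_mul_of_nonneg_left hA.le hd.le
  have h2 := h.e1
  refine ⟨by nlinarith, ?_⟩
  rw [lt_div_iff₀ (by linarith)]
  nlinarith [h.e0]

theorem st_GX : ST_GX := by
  intro k U U' A A' e h
  obtain ⟨h1, h2⟩ := gx_main h
  have h0 := h.e0
  constructor
  · intro t ht
    interval_cases t <;> norm_num [cox] <;> linarith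
  · intro s t hs ht hst
    interval_cases s <;> interval_cases t <;>
      first
        | (exfalso; revert hst; decide)
        | (norm_num [cox]; linarith)


end Pool.Agent.Helper54.SP
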