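import Pool.Agent.Helper54.SP.StmtsP

set_option autoImplicit false

namespace Pool.Agent.Helper54.SP

theorem wn_up {t a s : ℝ} (ht : 0 < t) (ha : 0 < a) (hs : 2 < s) :
    0 < t * a / s ∧ t * a / s < t * a / 2 := by
  have h1 : 0 < t * a := mul_pos ht ha
  exact ⟨by positivity, div_lt_div_of_pos_left h1 (by norm_num) hs⟩

theorem wn_lo {t a s δ : ℝ} (ht : 0 < t) (ha : 0 < a) (hs : 2 < s) (hs2 : s < 2 + δ) :
    t * a / (2 + δ) < t * a / s := by
  have h1 : 0 < t * a := mul_pos ht ha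
  exact div_lt_div_of_pos_left h1 (by linarith) hs2

theorem wn_prod {x y z x' y' z' : ℝ} (h1 : 0 < x) (h2 : 0 < y) (h3 : 0 < z) (h4 : x < x')
    (h5 : y < y') (h6 : z < z') : (1 + x) * (1 + y) * (1 + z) < (1 + x') * (1 + y') * (1 + z') := by
  have a1 : (1 + x) * (1 + y) < (1 + x') * (1 + y') :=
    mul_lt_mul'' (by linarith) (by linarith) (by linarith) (by linarith)
  have a2 : 0 ≤ (1 + x) * (1 + y) := by positivity
  exact mul_lt_mul'' a1 (by linarith) a2 (by linarith)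

theorem st_WN : ST_WN := by
  intro a0 a1 a2 a3 a4 h0 h1 h2 h3 h4 hlt
  obtain ⟨S, hS⟩ : ∃ S, S = a0 + a1 + a2 := ⟨_, rfl⟩
  obtain ⟨T, hT⟩ : ∃ T, T = a3 + a4 := ⟨_, rfl⟩
  obtain ⟨C, hC⟩ : ∃ C, C = (a0 * a1 + a0 * a2 + a1 * a2) / 4 + a0 * a1 * a2 / 8 := ⟨_, rfl⟩
  have hS0 : 0 < S := by rw [hS]; positivity
  have hC0 : 0 < C := by rw [hC]; positivity
  have hST : S < T := by rw [hS, hT]; exact hlt
  have hD : 0 < S / 2 + 3 * C + 1 := by positivity
  obtain ⟨δ, hδ⟩ : ∃ δ, δ = min 1 ((T - S) / (S / 2 + 3 * C + 1)) := ⟨_, rfl⟩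
  have hδ0 : 0 < δ := by
    rw [hδ]
    exact lt_min one_pos (div_pos (by linarith) hD)
  have hδ1 : δ ≤ 1 := by rw [hδ]; exact min_le_left _ _
  have hδ2 : δ * (S / 2 + 3 * C + 1) ≤ T - S := by
    have : δ ≤ (T - S) / (S / 2 + 3 * C + 1) := by rw [hδ]; exact min_le_right _ _
    exact (le_div_iff₀ hD).1 this
  refine ⟨δ, hδ0, ?_⟩
  intro t s0 s1 s2 s3 s4 ht htd hs
  have g0 := hs s0 (by simp)
  have g1 := hs s1 (by simp)
  have g2 := hs s2 (by simp)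
  have g3 := hs s3 (by simp)
  have g4 := hs s4 (by simp)
  have e0 := wn_up ht h0 g0.1
  have e1 := wn_up ht h1 g1.1
  have e2 := wn_up ht h2 g2.1
  have e3 := wn_lo ht h3 g3.1 g3.2
  have e4 := wn_lo ht h4 g4.1 g4.2
  have hL := wn_prod e0.1 e1.1 e2.1 e0.2 e1.2 e2.2
  have hR : 1 + t * T / (2 + δ) < (1 + t * a3 / s3) * (1 + t * a4 / s4) := by
    have p3 := (wn_up ht h3 g3.1).1
    have p4 := (wn_up ht h4 g4.1).1
    have : t * T / (2 + δ) = t * a3 / (2 + δ) + t * a4 / (2 + δ) := by rw [hT]; ring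
    rw [this]
    nlinarith [mul_pos p3 p4]
  have hM : (1 + t * a0 / 2) * (1 + t * a1 / 2) * (1 + t * a2 / 2) ≤ 1 + t * S / 2 + C * t ^ 2 := by
    have ht1 : t ≤ 1 := by linarith
    have hq : t ^ 3 ≤ t ^ 2 := by nlinarith [sq_nonneg t, mul_nonneg ht.le (sq_nonneg t)]
    have hp : 0 < a0 * a1 * a2 := by positivity
    have : (1 + t * a0 / 2) * (1 + t * a1 / 2) * (1 + t * a2 / 2) =
        1 + t * S / 2 + (a0 * a1 + a0 * a2 + a1 * a2) / 4 * t ^ 2 + a0 * a1 * a2 / 8 * t ^ 3 := by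
      rw [hS]; ring
    rw [this, hC]
    nlinarith [mul_nonneg hp.le (sub_nonneg.2 hq)]
  have hF : 1 + t * S / 2 + C * t ^ 2 ≤ 1 + t * T / (2 + δ) := by
    have h2d : 0 < 2 + δ := by linarith
    have k1 : (S / 2 + C * t) * (2 + δ) ≤ T := by
      have k2 : C * t ≤ C * δ := mul_le_mul_of_nonneg_left htd.le hC0.le
      have k3 : (S / 2 + C * t) * (2 + δ) ≤ (S / 2 + C * δ) * (2 + δ) :=
        mul_le_mul_of_nonneg_right (by linarith) h2d.le
      have k4 : (S / 2 + C * δ) * (2 + δ) = S + δ * (S / 2 + 2 * C + C * δ) := by ring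
      have k5 : C * δ ≤ C := by nlinarith
      have k6 : δ * (S / 2 + 2 * C + C * δ) ≤ δ * (S / 2 + 3 * C + 1) :=
        mul_le_mul_of_nonneg_left (by linarith) hδ0.le
      linarith
    have k7 : t * S / 2 + C * t ^ 2 ≤ t * T / (2 + δ) := by
      rw [le_div_iff₀ h2d]
      have : (t * S / 2 + C * t ^ 2) * (2 + δ) = t * ((S / 2 + C * t) * (2 + δ)) := by ring
      rw [this]
      exact mul_le_mul_of_nonneg_left k1 ht.le
    linarith
  linarith


end Pool.Agent.Helper54.SP
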